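import Mathlib

set_option autoImplicit false

namespace Pool.Agent.Results.MP_1a7a11_al.FCGroupDTCOne

open Filter

universe u

section Defs

variable {G : Type u} [Group G]

/-- The product `u □ v = {A : {x : x⁻¹A ∈ v} ∈ u}`. -/
def box (u v : Ultrafilter G) : Set (Set G) :=
  {A | {x : G | (fun a => x⁻¹ * a) '' A ∈ v} ∈ u}

/-- The product `u ◇ v = {A : {x : Ax⁻¹ ∈ u} ∈ v}`. -/
def diamond (u v : Ultrafilter G) : Set (Set G) :=
  {A | {x : G | (fun a => a * x⁻¹) '' A ∈ u} ∈ v}

/-- `D` is a DTC set: for every non-principal ultrafilter `u` on `G` there is `v ∈ D` with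
`u □ v ≠ u ◇ v`. -/
def IsDTCSet (D : Set (Ultrafilter G)) : Prop :=
  ∀ u : Ultrafilter G, (∀ g : G, u ≠ pure g) → ∃ v ∈ D, box u v ≠ diamond u v

end Defs

/-- `G` is DTC(κ): `κ` is the least cardinality of a DTC set. -/
def IsDTC (G : Type u) [Group G] (κ : Cardinal.{u}) : Prop :=
  IsLeast {c : Cardinal.{u} | ∃ D : Set (Ultrafilter G), IsDTCSet D ∧ Cardinal.mk D = c} κ

/-- `G` is an FC group: all conjugacy classes are finite. -/
def IsFC (G : Type u) [Group G] : Prop :=
  ∀ g : G, {x : G | ∃ h : G, x = h * g * h⁻¹}.Finite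

/-! ### The group -/

/-- The `i`-th factor: the dihedral group of order `2 (2 i + 2)`. -/
abbrev F (i : ℕ) : Type := DihedralGroup (2 * i + 2)

/-- The unrestricted product. -/
abbrev P : Type := (i : ℕ) → F i

/-- The restricted direct product, as a subgroup of the product. -/
def G : Subgroup P where
  carrier := {x | ∃ N, ∀ i, N ≤ i → x i = 1}
  one_mem' := ⟨0, fun _ _ => rfl⟩
  mul_mem' := by
    rintro x y ⟨N, hN⟩ ⟨M, hM⟩
    refine ⟨max N M, fun i hi => ?_⟩
    rw [Pi.mul_apply, hN i (le_trans (le_max_left _ _) hi), hM i (le_trans (le_max_right _ _) hi),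
      one_mul]
  inv_mem' := by
    rintro x ⟨N, hN⟩
    refine ⟨N, fun i hi => ?_⟩
    rw [Pi.inv_apply, hN i hi, inv_one]

lemma finite_support_lt (N : ℕ) : {x : P | ∀ i, N ≤ i → x i = 1}.Finite := by
  classical
  have h : {x : P | ∀ i, N ≤ i → x i = 1} ⊆
      Set.range (fun (f : (i : Fin N) → F i) => fun i => if h : i < N then f ⟨i, h⟩ else 1) := by
    intro x hx
    refine ⟨fun i => x i, ?_⟩
    funext i
    by_cases hi : i < N
    · simp only [dif_pos hi]
    · simp only [dif_neg hi]
      exact (hx i (by omega)).symm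
  exact (Set.finite_range _).subset h

lemma finite_support_lt' (N : ℕ) : {x : G | ∀ i, N ≤ i → (x : P) i = 1}.Finite :=
  Set.Finite.preimage (Subtype.val_injective.injOn) (finite_support_lt N)

instance : Countable G := by
  have h : (Set.univ : Set G) = ⋃ N : ℕ, {x : G | ∀ i, N ≤ i → (x : P) i = 1} := by
    ext x
    obtain ⟨N, hN⟩ := x.2
    simp only [Set.mem_univ, Set.mem_iUnion, true_iff]
    exact ⟨N, hN⟩
  rw [← Set.countable_univ_iff, h]
  exact Set.countable_iUnion fun N => (finite_support_lt' N).countable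

lemma isFC_G : IsFC G := by
  intro g
  obtain ⟨N, hN⟩ := g.2
  apply (finite_support_lt' N).subset
  rintro x ⟨h, rfl⟩ i hi
  change (h : P) i * (g : P) i * ((h : P) i)⁻¹ = 1
  rw [hN i hi, mul_one, mul_inv_cancel]

/-- The sequence `x_m = a_0 a_1 ... a_{m-1} b_m`. -/
def xs (m : ℕ) : G :=
  ⟨fun i => if i < m then DihedralGroup.r 1 else if i = m then DihedralGroup.sr 0 else 1,
    ⟨m + 1, fun i hi => by
      simp only
      rw [if_neg (by omega), if_neg (by omega)]⟩⟩

lemma xs_lt {m i : ℕ} (h : i < m) : (xs m : P) i = DihedralGroup.r 1 := by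
  simp [xs, h]

lemma xs_eq (m : ℕ) : (xs m : P) m = DihedralGroup.sr 0 := by
  simp [xs]

lemma xs_gt {m i : ℕ} (h : m < i) : (xs m : P) i = 1 := by
  have h1 : ¬ i < m := by omega
  have h2 : ¬ i = m := by omega
  simp [xs, h1, h2]

lemma r_ne_sr {n : ℕ} (i j : ZMod n) : (DihedralGroup.r i : DihedralGroup n) ≠ DihedralGroup.sr j := by
  intro h
  cases h

lemma one_ne_sr {n : ℕ} (j : ZMod n) : (1 : DihedralGroup n) ≠ DihedralGroup.sr j := by
  rw [DihedralGroup.one_def]
  exact r_ne_sr _ _

instance : Infinite G := by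
  apply Infinite.of_injective xs
  intro m n h
  by_contra hne
  rcases Nat.lt_or_gt_of_ne hne with hlt | hlt
  · have h1 : (xs m : P) n = (xs n : P) n := by rw [h]
    rw [xs_gt hlt, xs_eq] at h1
    exact one_ne_sr _ h1
  · have h1 : (xs m : P) m = (xs n : P) m := by rw [h]
    rw [xs_gt hlt, xs_eq] at h1
    exact one_ne_sr _ h1.symm

/-- The ultrafilter `v`. -/
noncomputable def v : Ultrafilter G := Ultrafilter.map xs (Filter.hyperfilter ℕ)

/-! ### The automaton -/

/-- The letter keeping state `j` at place `i`. -/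
def stay (c : P) (i j : ℕ) : F i := c i * DihedralGroup.r (-(j : ZMod (2 * i + 2)))

/-- The letter moving state `j` to state `j + 1` at place `i`. -/
def move (c : P) (i j : ℕ) : F i := c i * DihedralGroup.sr (-((j : ZMod (2 * i + 2)) + 1))

/-- The state (a counter, and whether the automaton is still alive) before reading place `i`. -/
def st (c z : P) : ℕ → ℕ × Bool
  | 0 => (0, true)
  | i + 1 =>
    if (st c z i).2 = true then
      (if z i = stay c i (st c z i).1 then ((st c z i).1, true)
       else if z i = move c i (st c z i).1 then ((st c z i).1 + 1, true)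
       else ((st c z i).1, false))
    else st c z i

lemma st_congr (c : P) {z z' : P} {n : ℕ} (h : ∀ i < n, z i = z' i) : st c z n = st c z' n := by
  induction n with
  | zero => rfl
  | succ n ih =>
    have h1 := ih (fun i hi => h i (by omega))
    have h2 := h n (by omega)
    rw [st, st, h1, h2]

lemma st_dead (c z : P) {n : ℕ} (h : (st c z n).2 = false) {m : ℕ} (hm : n ≤ m) :
    st c z m = st c z n := by
  induction m, hm using Nat.le_induction with
  | base => rfl
  | succ m _ ih =>
    rw [st, ih, if_neg (by rw [h]; decide)]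

lemma st_le (c z : P) (n : ℕ) : (st c z n).1 ≤ n := by
  induction n with
  | zero => exact le_rfl
  | succ n ih =>
    rw [st]
    split_ifs <;> omega

lemma st_alive (c z : P) {n : ℕ} (h : (st c z (n + 1)).2 = true) :
    z n = stay c n (st c z n).1 ∨ z n = move c n (st c z n).1 := by
  rw [st] at h
  split_ifs at h with h1 h2 h3
  · exact Or.inl h2
  · exact Or.inr h3
  · exact absurd h h1

/-- The element `x * x_m * a⁻¹` of the full product. -/
def tw (x : G) (m : ℕ) : P := fun i => (x : P) i * (xs m : P) i * (DihedralGroup.r 1)⁻¹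

lemma tw_lt (x : G) {m i : ℕ} (h : i < m) : tw x m i = (x : P) i := by
  rw [tw, xs_lt h, mul_assoc, mul_inv_cancel, mul_one]

lemma tw_eq (x : G) (m : ℕ) : tw x m m = (x : P) m * DihedralGroup.sr (-1) := by
  rw [tw, xs_eq, mul_assoc, DihedralGroup.inv_r, DihedralGroup.sr_mul_r, zero_add]

lemma tw_gt (x : G) {m i : ℕ} (h : m < i) : tw x m i = (x : P) i * DihedralGroup.r (-1) := by
  rw [tw, xs_gt h, mul_one, DihedralGroup.inv_r]

lemma st_init (c z : P) {n : ℕ} (h : ∀ i < n, z i = c i) : st c z n = (0, true) := by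
  induction n with
  | zero => rfl
  | succ n ih =>
    have h1 := ih (fun i hi => h i (by omega))
    rw [st, h1, if_pos rfl, if_pos]
    rw [h n (by omega), stay]
    simp

lemma st_shift (c : P) (x : G) (m : ℕ) (hx : ∀ i ≤ m, (x : P) i = c i) (k : ℕ) :
    st c (tw x m) (m + 1 + k) = ((st c x (m + 1 + k)).1 + 1, (st c x (m + 1 + k)).2) := by
  induction k with
  | zero =>
    rw [Nat.add_zero]
    have h1 : st c x (m + 1) = (0, true) := st_init c x (fun i hi => hx i (by omega))
    have h2 : st c (tw x m) m = (0, true) :=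
      st_init c _ (fun i hi => by rw [tw_lt x hi]; exact hx i (by omega))
    rw [h1, st, h2, if_pos rfl, if_neg, if_pos]
    · rw [tw_eq, hx m le_rfl, move]
      simp
    · rw [tw_eq, hx m le_rfl, stay]
      intro h
      exact r_ne_sr _ _ (mul_left_cancel h).symm
  | succ k ih =>
    have e : m + 1 + (k + 1) = (m + 1 + k) + 1 := by omega
    rw [e, st, ih, st]
    generalize hj : st c x (m + 1 + k) = s
    obtain ⟨j, b⟩ := s
    simp only
    by_cases hb : b = true
    · rw [if_pos hb, if_pos hb]
      have hs : tw x m (m + 1 + k) = stay c (m + 1 + k) (j + 1) ↔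
          (x : P) (m + 1 + k) = stay c (m + 1 + k) j := by
        rw [tw_gt x (by omega)]
        have : stay c (m + 1 + k) (j + 1) = stay c (m + 1 + k) j * DihedralGroup.r (-1) := by
          rw [stay, stay, mul_assoc, DihedralGroup.r_mul_r]
          congr 2
          push_cast
          ring
        rw [this]
        exact mul_left_inj _
      have hmv : tw x m (m + 1 + k) = move c (m + 1 + k) (j + 1) ↔
          (x : P) (m + 1 + k) = move c (m + 1 + k) j := by
        rw [tw_gt x (by omega)]
        have : move c (m + 1 + k) (j + 1) = move c (m + 1 + k) j * DihedralGroup.r (-1) := by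
          rw [move, move, mul_assoc, DihedralGroup.sr_mul_r]
          congr 2
          push_cast
          ring
        rw [this]
        exact mul_left_inj _
      simp only [hs, hmv]
      split_ifs <;> rfl
    · rw [if_neg hb, if_neg hb]

/-! ### The top component -/

/-- The last non-trivial component is the reflection `b`. -/
def Top (x : G) : Prop := ∃ l, (x : P) l = DihedralGroup.sr 0 ∧ ∀ i, l < i → (x : P) i = 1

lemma image_left {x : G} {A : Set G} : (fun a => x⁻¹ * a) '' A = {y | x * y ∈ A} := by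
  ext y
  constructor
  · rintro ⟨a, ha, rfl⟩
    simpa using ha
  · intro hy
    exact ⟨x * y, hy, by simp⟩

lemma image_right {x : G} {A : Set G} : (fun a => a * x⁻¹) '' A = {y | y * x ∈ A} := by
  ext y
  constructor
  · rintro ⟨a, ha, rfl⟩
    simpa using ha
  · intro hy
    exact ⟨y * x, hy, by simp⟩

lemma mem_box {u : Ultrafilter G} {A : Set G} : A ∈ box u v ↔
    ∀ᶠ x in (u : Filter G), ∀ᶠ m in (hyperfilter ℕ : Filter ℕ), x * xs m ∈ A := by
  change {x : G | (fun a => x⁻¹ * a) '' A ∈ v} ∈ u ↔ _
  simp only [image_left]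
  rfl

lemma mem_diamond {u : Ultrafilter G} {A : Set G} : A ∈ diamond u v ↔
    ∀ᶠ m in (hyperfilter ℕ : Filter ℕ), ∀ᶠ x in (u : Filter G), x * xs m ∈ A := by
  change {x : G | (fun a => a * x⁻¹) '' A ∈ u} ∈ v ↔ _
  simp only [image_right]
  rfl

/-- The final computation in a dihedral group. -/
lemma dihedral_final (n : ℕ) (d : DihedralGroup (2 * n + 2)) (j j' : ℕ) (hj : j ≤ n)
    (hj' : j' ≤ n)
    (h1 : 1 = d * DihedralGroup.r (-(j : ZMod (2 * n + 2))) ∨
      1 = d * DihedralGroup.sr (-((j : ZMod (2 * n + 2)) + 1)))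
    (h2 : DihedralGroup.sr 0 = d * DihedralGroup.r (-(j' : ZMod (2 * n + 2))) ∨
      DihedralGroup.sr 0 = d * DihedralGroup.sr (-((j' : ZMod (2 * n + 2)) + 1))) : False := by
  have key : ((j + j' + 1 : ℕ) : ZMod (2 * n + 2)) ≠ 0 := by
    intro h
    rw [ZMod.natCast_eq_zero_iff] at h
    have := Nat.le_of_dvd (by omega) h
    omega
  rw [DihedralGroup.one_def] at h1
  cases d with
  | r k =>
    rw [DihedralGroup.r_mul_r, DihedralGroup.r_mul_sr] at h1 h2
    rcases h1 with h1 | h1
    · rcases h2 with h2 | h2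
      · exact r_ne_sr _ _ h2.symm
      · rw [DihedralGroup.r.injEq] at h1
        rw [DihedralGroup.sr.injEq] at h2
        apply key
        push_cast
        linear_combination h1 + h2
    · exact r_ne_sr _ _ h1
  | sr k =>
    rw [DihedralGroup.sr_mul_r, DihedralGroup.sr_mul_sr] at h1 h2
    rcases h1 with h1 | h1
    · exact r_ne_sr _ _ h1
    · rcases h2 with h2 | h2
      · rw [DihedralGroup.r.injEq] at h1
        rw [DihedralGroup.sr.injEq] at h2
        apply key
        push_cast
        linear_combination h1 + h2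
      · exact r_ne_sr _ _ h2.symm

/-- The automaton breaks with an even final count. -/
def Q (c z : P) : Prop := ∃ i, (st c z i).2 = false ∧ Even (st c z i).1

lemma Q_iff (c z : P) (i : ℕ) (hi : (st c z i).2 = false) : Q c z ↔ Even (st c z i).1 := by
  constructor
  · rintro ⟨k, hk, hk2⟩
    rcases le_total i k with h | h
    · rwa [st_dead c z hi h] at hk2
    · rwa [← st_dead c z hk h] at hk2
  · intro h
    exact ⟨i, hi, h⟩

lemma tw_eq_mul (x : G) (m : ℕ) :
    (fun i => ((x * xs m : G) : P) i * (DihedralGroup.r 1)⁻¹ : P) = tw x m := by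
  funext i
  rfl

lemma Q_far (c : P) (x : G) (i m : ℕ) (hi : (st c x i).2 = false) (him : i ≤ m) :
    Q c (tw x m) ↔ Q c x := by
  have h3 : st c (tw x m) i = st c x i := st_congr c (fun k hk => tw_lt x (by omega))
  rw [Q_iff c _ i hi, Q_iff c _ i (by rw [h3]; exact hi), h3]

lemma Q_near (c : P) (x : G) (m : ℕ) (hx : ∀ i ≤ m, (x : P) i = c i)
    (h : ∃ i, (st c x i).2 = false) : Q c (tw x m) ↔ ¬ Q c x := by
  obtain ⟨i, hi⟩ := h
  have h4 := st_shift c x m hx i
  have h5 : st c x (m + 1 + i) = st c x i := st_dead c x hi (by omega)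
  rw [h5] at h4
  rw [Q_iff c _ i hi, Q_iff c _ (m + 1 + i) (by rw [h4]; exact hi), h4]
  exact Nat.even_add_one

/-- The heart of the matter. -/
lemma core (u : Ultrafilter G) (hu : ∀ g : G, u ≠ pure g) : box u v ≠ diamond u v := by
  classical
  intro heq
  have H : ∀ Q : G → Prop,
      (∀ᶠ x in (u : Filter G), ∀ᶠ m in (hyperfilter ℕ : Filter ℕ), Q (x * xs m)) ↔
      (∀ᶠ m in (hyperfilter ℕ : Filter ℕ), ∀ᶠ x in (u : Filter G), Q (x * xs m)) := by
    intro Q
    have h1 := mem_box (u := u) (A := {y | Q y})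
    have h2 := mem_diamond (u := u) (A := {y | Q y})
    rw [heq] at h1
    exact h1.symm.trans h2
  -- large `m`
  have hlarge : ∀ N : ℕ, ∀ᶠ m in (hyperfilter ℕ : Filter ℕ), N ≤ m := by
    intro N
    have h1 : (hyperfilter ℕ : Filter ℕ) ≤ atTop := by
      rw [← Nat.cofinite_eq_atTop]; exact hyperfilter_le_cofinite
    exact h1 (eventually_ge_atTop N)
  -- `u` is not concentrated on a finite set
  have hnp : ∀ N : ℕ, ∀ᶠ x : G in (u : Filter G), ∃ i, N ≤ i ∧ (x : P) i ≠ 1 := by
    intro N
    by_contra hcon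
    rw [← Ultrafilter.eventually_not] at hcon
    have h1 : {x : G | ∀ i, N ≤ i → (x : P) i = 1} ∈ u := by
      filter_upwards [hcon] with x hx i hi
      by_contra hne
      exact hx ⟨i, hi, hne⟩
    obtain ⟨g, _, hg⟩ := Ultrafilter.eq_pure_of_finite_mem (finite_support_lt' N) h1
    exact hu g hg
  -- limits of the components
  have hc : ∀ i : ℕ, ∃ ci : F i, ∀ᶠ x : G in (u : Filter G), (x : P) i = ci := by
    intro i
    obtain ⟨a, ha⟩ := Ultrafilter.eq_pure_of_finite (u.map (fun x : G => (x : P) i))
    refine ⟨a, ?_⟩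
    have h1 : ({a} : Set (F i)) ∈ u.map (fun x : G => (x : P) i) := by rw [ha]; exact rfl
    exact h1
  choose c hc using hc
  have hcm : ∀ m : ℕ, ∀ᶠ x : G in (u : Filter G), ∀ i ≤ m, (x : P) i = c i := by
    intro m
    exact (Filter.eventually_all_finite (Set.finite_Iic m)).mpr (fun i _ => hc i)
  -- the top component
  have htop : ∀ᶠ x : G in (u : Filter G), Top x := by
    have h1 : ∀ᶠ x in (u : Filter G), ∀ᶠ m in (hyperfilter ℕ : Filter ℕ), Top (x * xs m) := by
      refine Filter.Eventually.of_forall (fun x => ?_)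
      obtain ⟨N, hN⟩ := x.2
      filter_upwards [hlarge N] with m hm
      refine ⟨m, ?_, fun i hi => ?_⟩
      · change (x : P) m * (xs m : P) m = _
        rw [hN m hm, xs_eq, one_mul]
      · change (x : P) i * (xs m : P) i = _
        rw [hN i (by omega), xs_gt hi, one_mul]
    obtain ⟨m, hm⟩ := ((H Top).mp h1).exists
    filter_upwards [hm, hnp (m + 1)] with x hx hx2
    obtain ⟨l, hl, hl2⟩ := hx
    obtain ⟨i, hi, hi2⟩ := hx2
    have hgt : ∀ j, m < j → ((x * xs m : G) : P) j = (x : P) j := by
      intro j hj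
      change (x : P) j * (xs m : P) j = _
      rw [xs_gt hj, mul_one]
    have hil : i ≤ l := by
      by_contra hcon
      apply hi2
      rw [← hgt i (by omega)]
      exact hl2 i (by omega)
    refine ⟨l, ?_, fun j hj => ?_⟩
    · rw [← hgt l (by omega)]; exact hl
    · rw [← hgt j (by omega)]; exact hl2 j hj
  by_cases hbr : ∀ᶠ x : G in (u : Filter G), ∃ i, (st c x i).2 = false
  · -- the automaton breaks: parity of the final count
    have h1 : (∀ᶠ x : G in (u : Filter G), ∀ᶠ m in (hyperfilter ℕ : Filter ℕ), Q c (tw x m)) ↔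
        (∀ᶠ m in (hyperfilter ℕ : Filter ℕ), ∀ᶠ x : G in (u : Filter G), Q c (tw x m)) := by
      have h0 := H (fun y => Q c (fun i => (y : P) i * (DihedralGroup.r 1)⁻¹))
      simp only [tw_eq_mul] at h0
      exact h0
    have h4 : (∀ᶠ x : G in (u : Filter G), ∀ᶠ m in (hyperfilter ℕ : Filter ℕ), Q c (tw x m)) ↔
        ∀ᶠ x : G in (u : Filter G), Q c x := by
      constructor
      · intro h
        filter_upwards [hbr, h] with x hx hx2
        obtain ⟨i, hi⟩ := hx
        obtain ⟨m, hm, hm2⟩ := (hx2.and (hlarge i)).exists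
        exact (Q_far c x i m hi hm2).mp hm
      · intro h
        filter_upwards [hbr, h] with x hx hx2
        obtain ⟨i, hi⟩ := hx
        filter_upwards [hlarge i] with m hm
        exact (Q_far c x i m hi hm).mpr hx2
    have h5 : (∀ᶠ m in (hyperfilter ℕ : Filter ℕ), ∀ᶠ x : G in (u : Filter G), Q c (tw x m)) ↔
        ∀ᶠ x : G in (u : Filter G), ¬ Q c x := by
      constructor
      · intro h
        obtain ⟨m, hm⟩ := h.exists
        filter_upwards [hm, hcm m, hbr] with x hx hx2 hx3
        exact (Q_near c x m hx2 hx3).mp hx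
      · intro h
        refine Filter.Eventually.of_forall (fun m => ?_)
        filter_upwards [h, hcm m, hbr] with x hx hx2 hx3
        exact (Q_near c x m hx2 hx3).mpr hx
    have h6 : (∀ᶠ x : G in (u : Filter G), Q c x) ↔ ∀ᶠ x : G in (u : Filter G), ¬ Q c x :=
      h4.symm.trans (h1.trans h5)
    rw [Ultrafilter.eventually_not] at h6
    tauto
  · -- the automaton never breaks
    rw [← Ultrafilter.eventually_not] at hbr
    have hal : ∀ᶠ x : G in (u : Filter G), ∀ i, (st c x i).2 = true := by
      filter_upwards [hbr] with x hx i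
      by_contra hne
      exact hx ⟨i, by simpa using hne⟩
    obtain ⟨x, hx⟩ := hal.exists
    obtain ⟨N, hN⟩ := x.2
    obtain ⟨x', hx', ⟨l, hl, hl2⟩, ⟨i, hi, hi2⟩⟩ := (hal.and (htop.and (hnp N))).exists
    have hil : i ≤ l := by
      by_contra hcon
      exact hi2 (hl2 i (by omega))
    have h1 := st_alive c x (hx (l + 1))
    have h2 := st_alive c x' (hx' (l + 1))
    rw [hN l (by omega)] at h1
    rw [hl] at h2
    exact dihedral_final l (c l) _ _ (st_le c x l) (st_le c x' l) h1 h2

/-- **Main theorem.** There is a countably infinite FC group which is DTC(1), hence not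
DTC(2). -/
theorem result : ∃ (G : Type) (_ : Group G), Infinite G ∧ Countable G ∧ IsFC G ∧
    IsDTC G 1 ∧ ¬ IsDTC G 2 := by
  have hone : IsDTC G 1 := by
    constructor
    · refine ⟨{v}, ?_, by simp⟩
      intro u hu
      exact ⟨v, rfl, core u hu⟩
    · rintro κ ⟨D, hD, rfl⟩
      obtain ⟨w, hw, _⟩ := hD (hyperfilter G) (by
        intro g hg
        have h1 : ({g} : Set G) ∈ (hyperfilter G : Ultrafilter G) := by
          rw [hg]; exact rfl
        exact notMem_hyperfilter_of_finite (Set.finite_singleton g) h1)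
      rw [Cardinal.one_le_iff_ne_zero, Cardinal.mk_ne_zero_iff]
      exact ⟨⟨w, hw⟩⟩
  refine ⟨G, inferInstance, inferInstance, inferInstance, isFC_G, hone, ?_⟩
  intro htwo
  have := hone.unique htwo
  norm_num at this

end Pool.Agent.Results.MP_1a7a11_al.FCGroupDTCOne
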